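import Pool.Graph.R_pool_sql_team_seeded_3997aac3.Q204.BL.Choice

/-!
MP_4cf54b_lc: choice fails for an arithmetical formula with exactly two solutions for every object.
-/

set_option autoImplicit false

namespace Pool.Agent.KS6_29.BV
open Q204.BL Filter

/-- the library's `not_choice` as a statement about its formula -/
theorem no_phi_choice (R₁ : NN.S 1) : ¬ ∀ (x : Fin 1 → N) (P : NN.S 0),
    (∀ y, y ∈ P.1 ↔ join (k := 0) (m := 0) x y ∈ R₁.1) →
      phi.Sat (V₀.upd 0 0 P) (ovr x (fun _ => o₀)) := by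
  obtain ⟨R, k, v, hR⟩ := R₁
  intro hR'
  choose it hit using fun t => no_split k (hat v t)
  set x₀ : N := ((fun t => ix (it t) : ℕ → M) : N) with hx₀
  set yb : Bool → N := fun b => ((fun t => ab (it t) b : ℕ → M) : N) with hyb
  have hpi : ∀ b, (![yb b, x₀] : Fin 2 → N) ∈ (V₀ 1 0).1 := by
    intro b
    rw [mem_V₀]
    filter_upwards [rp_coe (fun t => ab (it t) b), rp_coe (fun t => ix (it t))] with t h1 h2
    rw [h1, h2]
    exact ⟨_, _, rfl, rfl⟩
  have hpi' : ∀ y : N, (![y, x₀] : Fin 2 → N) ∈ (V₀ 1 0).1 → y = yb true ∨ y = yb false := by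
    intro y hy
    rw [mem_V₀] at hy
    have h1 : ∀ᶠ t in (U : Filter ℕ), rp y t = ab (it t) true ∨ rp y t = ab (it t) false := by
      filter_upwards [hy, rp_coe (fun t => ix (it t))] with t h1 h2
      rw [h2] at h1
      obtain ⟨i, b, h3, h4⟩ := h1
      rw [ix_inj h4, h3]
      cases b
      · exact Or.inr rfl
      · exact Or.inl rfl
    rcases Ultrafilter.eventually_or.1 h1 with h2 | h2
    · left
      rw [← coe_rp y]
      exact Germ.coe_eq.2 h2
    · right
      rw [← coe_rp y]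
      exact Germ.coe_eq.2 h2
  have hne : yb true ≠ yb false := by
    intro h1
    obtain ⟨t, ht⟩ := (Germ.coe_eq.1 h1).exists
    exact absurd (ab_inj ht).2 (by simp)
  have hmem : ∀ b, cons x₀ (cons (yb b) v) ∈ str (E k) ↔
      ∀ᶠ t in (U : Filter ℕ), cons (ix (it t)) (cons (ab (it t) b) (hat v t)) ∈ E k := by
    intro b
    rw [mem_str_of (inv_fsup k).2 (r := fun i => cons (fun t => ix (it t))
      (cons (fun t => ab (it t) b) (fun i => rp (v i))) i) (fun i => by
        match i with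
        | 0 => rfl
        | 1 => rfl
        | i + 2 => exact (coe_rp _).symm)]
    apply eventually_congr
    filter_upwards with t
    have e : (fun i => (cons (fun t => ix (it t))
      (cons (fun t => ab (it t) b) (fun i => rp (v i))) i : ℕ → M) t) =
        cons (ix (it t)) (cons (ab (it t) b) (hat v t)) := by
      funext i
      match i with
      | 0 => rfl
      | 1 => rfl
      | i + 2 => rfl
    rw [e]
  have hsplit : cons x₀ (cons (yb true) v) ∈ str (E k) ↔
      cons x₀ (cons (yb false) v) ∈ str (E k) := by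
    rw [hmem, hmem]
    exact eventually_congr (Eventually.of_forall hit)
  -- the section of `R`
  obtain ⟨k', hk'⟩ := (isD_str k).sub (fun i => if i = 0 then 1 else if i = 1 then 0 else i)
  have hsec : ∀ y : Fin 1 → N, pre y (cons x₀ v) ∈ str (E k') ↔
      cons x₀ (cons (y 0) v) ∈ str (E k) := by
    intro y
    rw [← hk', pre_one]
    show (fun i => (cons (y 0) (cons x₀ v) : ℕ → N) (if i = 0 then 1 else if i = 1 then 0 else i))
      ∈ str (E k) ↔ _
    have : (fun i => (cons (y 0) (cons x₀ v) : ℕ → N)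
        (if i = 0 then 1 else if i = 1 then 0 else i)) = cons x₀ (cons (y 0) v) := by
      funext i
      match i with
      | 0 => rfl
      | 1 => rfl
      | i + 2 => rfl
    rw [this]
  have hjoin : ∀ (y : Fin 1 → N), join (k := 0) (m := 0) (fun _ => x₀) y ∈ R ↔
      cons x₀ (cons (y 0) v) ∈ str (E k) := by
    intro y
    rw [hR]
    show pre (join (k := 0) (m := 0) (fun _ => x₀) y) v ∈ str (E k) ↔ _
    have : pre (join (k := 0) (m := 0) (fun _ => x₀) y) v = cons x₀ (cons (y 0) v) := by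
      funext i
      match i with
      | 0 => rfl
      | 1 => rfl
      | i + 2 => rfl
    rw [this]
  have h1 := hR' (fun _ => x₀) ⟨{x | pre x (cons x₀ v) ∈ str (E k')}, k', cons x₀ v, rfl⟩
    (fun y => by
      show pre y (cons x₀ v) ∈ str (E k') ↔ join (k := 0) (m := 0) (fun _ => x₀) y ∈ R
      rw [hsec, hjoin])
  have h2 : phi.Sat (V₀.upd 0 0 ⟨{x | pre x (cons x₀ v) ∈ str (E k')}, k', cons x₀ v, rfl⟩)
    (ovr (fun _ : Fin 1 => x₀) (fun _ => o₀)) := h1
  rw [sat_phi] at h2
  obtain ⟨⟨y, hy1, hy2⟩, huniq⟩ := h2 ⟨_, hpi true⟩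
  have hy3 : cons x₀ (cons y v) ∈ str (E k) := (hsec (fun _ => y)).1 hy1
  have hboth : ∀ b, cons x₀ (cons (yb b) v) ∈ str (E k) := by
    rcases hpi' y hy2 with rfl | rfl
    · intro b
      cases b
      · exact hsplit.1 hy3
      · exact hy3
    · intro b
      cases b
      · exact hy3
      · exact hsplit.2 hy3
  exact hne (huniq _ _ ((hsec (fun _ => yb true)).2 (hboth true))
    ((hsec (fun _ => yb false)).2 (hboth false)))


/-- `∀ z, ¬ P z` -/
def emp : AF := .all 1 (AF.app 0 0 (fun _ => .ov 1)).not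

/-- `∀ z, P z` -/
def full : AF := .all 1 (AF.app 0 0 (fun _ => .ov 1))

/-- `P` is a singleton `{y}` with `π(y, x₀)`, or there is no such `y` and `P` is empty or everything -/
def phi2 : AF := phi.and (.imp (AF.ex 1 piY).not (.imp emp.not full))

theorem sat_phi2 (P : NN.S 0) (x : Fin 1 → N) (v : ℕ → N) :
    phi2.Sat (V₀.upd 0 0 P) (ovr x v) ↔ phi.Sat (V₀.upd 0 0 P) (ovr x v) ∧
      ((¬ ∃ y, (![y, x 0] : Fin 2 → N) ∈ (V₀ 1 0).1) →
        (∀ y, (fun _ => y) ∉ P.1) ∨ ∀ y, (fun _ => y) ∈ P.1) := by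
  have h1 : (V₀.upd 0 0 P) 1 0 = V₀ 1 0 := by
    unfold RA.upd
    rw [Function.update_of_ne (by norm_num)]
  have h2 : (V₀.upd 0 0 P) 0 0 = P := by
    unfold RA.upd
    rw [Function.update_self, Function.update_self]
  have h3 : ∀ y, piY.Sat (V₀.upd 0 0 P) (Function.update (ovr x v) 1 y) ↔
      (![y, x 0] : Fin 2 → N) ∈ (V₀ 1 0).1 := by
    intro y
    rw [sat_piY, h1]
    have e1 : Function.update (ovr x v) 1 y 1 = y := Function.update_self _ _ _
    have e2 : Function.update (ovr x v) 1 y 0 = x 0 := by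
      rw [Function.update_of_ne (by norm_num)]
      rfl
    rw [e1, e2]
  have h4 : ∀ y, (AF.app 0 0 (fun _ => .ov 1)).Sat (V₀.upd 0 0 P) (Function.update (ovr x v) 1 y) ↔
      (fun _ => y) ∈ P.1 := by
    intro y
    show (fun _ => Function.update (ovr x v) 1 y 1) ∈ ((V₀.upd 0 0 P) 0 0).1 ↔ _
    rw [h2]
    have e1 : Function.update (ovr x v) 1 y 1 = y := Function.update_self _ _ _
    rw [e1]
  have h5 : emp.Sat (V₀.upd 0 0 P) (ovr x v) ↔ ∀ y, (fun _ => y) ∉ P.1 :=
    forall_congr' fun y => not_congr (h4 y)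
  have h6 : full.Sat (V₀.upd 0 0 P) (ovr x v) ↔ ∀ y, (fun _ => y) ∈ P.1 :=
    forall_congr' fun y => h4 y
  have h7 : (AF.ex 1 piY).Sat (V₀.upd 0 0 P) (ovr x v) ↔
      ∃ y, (![y, x 0] : Fin 2 → N) ∈ (V₀ 1 0).1 := by
    rw [AF.sat_ex]
    exact exists_congr h3
  rw [phi2, AF.sat_and]
  refine and_congr_right fun _ => ?_
  show (¬ (AF.ex 1 piY).Sat _ _ → (¬ emp.Sat _ _ → full.Sat _ _)) ↔ _
  rw [h5, h6, h7]
  refine imp_congr_right fun _ => ?_
  tauto

/-- every object is paired with no object or with exactly two -/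
theorem pair_two (x : N) (h : ∃ y, (![y, x] : Fin 2 → N) ∈ (V₀ 1 0).1) :
    ∃ y z : N, y ≠ z ∧ ∀ w, (![w, x] : Fin 2 → N) ∈ (V₀ 1 0).1 ↔ w = y ∨ w = z := by
  classical
  obtain ⟨y₀, hy₀⟩ := h
  rw [mem_V₀] at hy₀
  obtain ⟨g, hg⟩ : ∃ g : ℕ → ℕ, ∀ t, (∃ i b, rp y₀ t = ab i b ∧ rp x t = ix i) → rp x t = ix (g t) := by
    refine ⟨fun t => if h : ∃ i, rp x t = ix i then h.choose else 0, fun t ht => ?_⟩
    obtain ⟨i, b, -, h2⟩ := ht
    have h3 : ∃ i, rp x t = ix i := ⟨i, h2⟩
    show rp x t = ix (if h : ∃ i, rp x t = ix i then h.choose else 0)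
    rw [dif_pos h3]
    exact h3.choose_spec
  have hx : ∀ᶠ t in (U : Filter ℕ), rp x t = ix (g t) := by
    filter_upwards [hy₀] with t ht
    exact hg t ht
  set yb : Bool → N := fun b => ((fun t => ab (g t) b : ℕ → M) : N) with hyb
  have hpi : ∀ b, (![yb b, x] : Fin 2 → N) ∈ (V₀ 1 0).1 := by
    intro b
    rw [mem_V₀]
    filter_upwards [rp_coe (fun t => ab (g t) b), hx] with t h1 h2
    rw [h1, h2]
    exact ⟨_, _, rfl, rfl⟩
  refine ⟨yb true, yb false, ?_, fun w => ⟨fun hw => ?_, ?_⟩⟩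
  · intro h1
    obtain ⟨t, ht⟩ := (Germ.coe_eq.1 h1).exists
    exact absurd (ab_inj ht).2 (by simp)
  · rw [mem_V₀] at hw
    have h1 : ∀ᶠ t in (U : Filter ℕ), rp w t = ab (g t) true ∨ rp w t = ab (g t) false := by
      filter_upwards [hw, hx] with t h1 h2
      rw [h2] at h1
      obtain ⟨i, b, h3, h4⟩ := h1
      rw [ix_inj h4, h3]
      cases b
      · exact Or.inr rfl
      · exact Or.inl rfl
    rcases Ultrafilter.eventually_or.1 h1 with h2 | h2
    · left
      rw [← coe_rp w]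
      exact Germ.coe_eq.2 h2
    · right
      rw [← coe_rp w]
      exact Germ.coe_eq.2 h2
  · rintro (rfl | rfl)
    · exact hpi true
    · exact hpi false

/-- exactly two solutions -/
theorem two_solutions (x : Fin 1 → N) : ∃ P Q : NN.S 0, P ≠ Q ∧ ∀ T : NN.S 0,
    phi2.Sat (V₀.upd 0 0 T) (ovr x (fun _ => o₀)) ↔ T = P ∨ T = Q := by
  have hfun : ∀ u : Fin 1 → N, u = fun _ => u 0 := fun u => by
    funext i
    rw [Subsingleton.elim i 0]
  by_cases hx : ∃ y, (![y, x 0] : Fin 2 → N) ∈ (V₀ 1 0).1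
  · obtain ⟨y, z, hne, hyz⟩ := pair_two (x 0) hx
    refine ⟨⟨_, singleton_mem y⟩, ⟨_, singleton_mem z⟩, ?_, fun T => ?_⟩
    · intro he
      have h1 : (fun _ : Fin 1 => y) ∈ {u : Fin 1 → N | u 0 = y} := rfl
      have h2 : {u : Fin 1 → N | u 0 = y} = {u : Fin 1 → N | u 0 = z} := congrArg Subtype.val he
      rw [h2] at h1
      exact hne h1
    · rw [sat_phi2, sat_phi]
      have key : ∀ w : N, T = ⟨_, singleton_mem w⟩ ↔ ∀ a : N, (fun _ => a) ∈ T.1 ↔ a = w := by
        intro w
        constructor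
        · rintro rfl a
          exact Iff.rfl
        · intro h
          apply Subtype.ext
          ext u
          rw [hfun u, h]
          exact Iff.rfl
      rw [key, key]
      constructor
      · rintro ⟨h1, -⟩
        obtain ⟨⟨w, hw1, hw2⟩, huniq⟩ := h1 hx
        have h3 : ∀ a : N, (fun _ => a) ∈ T.1 ↔ a = w := fun a =>
          ⟨fun ha => huniq a w ha hw1, fun ha => ha ▸ hw1⟩
        rcases (hyz w).1 hw2 with rfl | rfl
        · exact Or.inl h3
        · exact Or.inr h3
      · intro h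
        refine ⟨fun _ => ?_, fun h' => absurd hx h'⟩
        rcases h with h | h
        · exact ⟨⟨y, (h y).2 rfl, (hyz y).2 (Or.inl rfl)⟩, fun a b ha hb =>
            ((h a).1 ha).trans ((h b).1 hb).symm⟩
        · exact ⟨⟨z, (h z).2 rfl, (hyz z).2 (Or.inr rfl)⟩, fun a b ha hb =>
            ((h a).1 ha).trans ((h b).1 hb).symm⟩
  · obtain ⟨R1, hR1⟩ := arithComp 0 .bot V₀ (fun _ => o₀)
    obtain ⟨R2, hR2⟩ := arithComp 0 (.imp .bot .bot) V₀ (fun _ => o₀)
    have h1 : ∀ u, u ∉ R1.1 := fun u hu => (hR1 u).1 hu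
    have h2 : ∀ u, u ∈ R2.1 := fun u => (hR2 u).2 (fun hb => hb)
    refine ⟨R1, R2, ?_, fun T => ?_⟩
    · intro he
      have h3 := h2 (fun _ => o₀)
      rw [← he] at h3
      exact h1 _ h3
    · rw [sat_phi2, sat_phi]
      constructor
      · rintro ⟨-, h⟩
        rcases h hx with h | h
        · left
          apply Subtype.ext
          ext u
          rw [hfun u]
          exact iff_of_false (h _) (h1 _)
        · right
          apply Subtype.ext
          ext u
          rw [hfun u]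
          exact iff_of_true (h _) (h2 _)
      · intro h
        refine ⟨fun h' => absurd h' hx, fun _ => ?_⟩
        rcases h with rfl | rfl
        · exact Or.inl fun y => h1 _
        · exact Or.inr fun y => h2 _

/-- no choice relation -/
theorem no_phi2_choice (R : NN.S 1) : ¬ ∀ (x : Fin 1 → N) (P : NN.S 0),
    (∀ y, y ∈ P.1 ↔ join (k := 0) (m := 0) x y ∈ R.1) →
      phi2.Sat (V₀.upd 0 0 P) (ovr x (fun _ => o₀)) := by
  intro h
  refine no_phi_choice R fun x P hP => ?_
  have := h x P hP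
  rw [sat_phi2] at this
  exact this.1

end Pool.Agent.KS6_29.BV
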