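import Pool.Graph.R_pool_sql_team_seeded_3997aac3.Q204.BL.Syntax

/-!
MP_4cf54b_lc: `Δ¹₁`-comprehension implies `Σ¹₁`-choice for formulas with exactly one solution.
-/

set_option autoImplicit false

namespace Pool.Agent.KS6_29.BV
open Q204.BL

/-- renaming of object variables in terms -/
def tren (f : ℕ → ℕ) : Tm → Tm
  | .ov i => .ov (f i)
  | .bd k => .bd k

/-- renaming of object variables (also the bound ones) -/
def ren (f : ℕ → ℕ) : AF → AF
  | .eq s t => .eq (tren f s) (tren f t)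
  | .app n k ts => .app n k (fun i => tren f (ts i))
  | .bot => .bot
  | .imp φ ψ => .imp (ren f φ) (ren f ψ)
  | .all i φ => .all (f i) (ren f φ)

variable {𝔐 : Str}

lemma val_tren (f : ℕ → ℕ) (V : RA 𝔐) (v : ℕ → 𝔐.M) (t : Tm) :
    (tren f t).val V v = t.val V (v ∘ f) := by
  cases t <;> rfl

lemma sat_ren (f : ℕ → ℕ) (hf : Function.Injective f) (V : RA 𝔐) (φ : AF) :
    ∀ v : ℕ → 𝔐.M, (ren f φ).Sat V v ↔ φ.Sat V (v ∘ f) := by
  induction φ with
  | eq s t =>
    intro v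
    show (tren f s).val V v = (tren f t).val V v ↔ s.val V (v ∘ f) = t.val V (v ∘ f)
    rw [val_tren, val_tren]
  | app n k ts =>
    intro v
    show (fun i => (tren f (ts i)).val V v) ∈ (V n k).1 ↔ (fun i => (ts i).val V (v ∘ f)) ∈ (V n k).1
    simp only [val_tren]
  | bot => intro v; exact Iff.rfl
  | imp φ ψ h1 h2 =>
    intro v
    show ((ren f φ).Sat V v → (ren f ψ).Sat V v) ↔ (φ.Sat V (v ∘ f) → ψ.Sat V (v ∘ f))
    rw [h1, h2]
  | all i φ ih =>
    intro v
    show (∀ a, (ren f φ).Sat V (Function.update v (f i) a)) ↔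
      (∀ a, φ.Sat V (Function.update (v ∘ f) i a))
    refine forall_congr' fun a => ?_
    rw [ih, Function.update_comp_eq_of_injective _ hf]

lemma satEx_ren (f : ℕ → ℕ) (hf : Function.Injective f) (φ : AF) (l : List (ℕ × ℕ)) :
    ∀ (V : RA 𝔐) (v : ℕ → 𝔐.M), SatEx (ren f φ) l V v ↔ SatEx φ l V (v ∘ f) := by
  induction l with
  | nil => intro V v; exact sat_ren f hf V φ v
  | cons p l ih => intro V v; exact exists_congr fun R => ih _ _

lemma upd_ne (V : RA 𝔐) (n k n' k' : ℕ) (R : 𝔐.S n) (h : (n', k') ≠ (n, k)) :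
    (V.upd n k R) n' k' = V n' k' := by
  unfold RA.upd
  by_cases h1 : n' = n
  · subst h1
    rw [Function.update_self, Function.update_of_ne (fun h2 => h (by rw [h2]))]
  · rw [Function.update_of_ne h1]

lemma upd_self (V : RA 𝔐) (n k : ℕ) (R : 𝔐.S n) : (V.upd n k R) n k = R := by
  unfold RA.upd
  rw [Function.update_self, Function.update_self]

/-- the atomic formula `P(x_a, ..., x_(a+m))` -/
def atom (m a : ℕ) : AF := .app m 0 (fun i => .ov (a + i))

lemma sat_atom (m a : ℕ) (V : RA 𝔐) (v : ℕ → 𝔐.M) :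
    (atom m a).Sat V v ↔ (fun i : Fin (m + 1) => v (a + i)) ∈ (V m 0).1 := Iff.rfl

lemma satEx_and (φ : AF) (m a : ℕ) (l : List (ℕ × ℕ)) (hl : (m, 0) ∉ l) :
    ∀ (V : RA 𝔐) (v : ℕ → 𝔐.M), SatEx (φ.and (atom m a)) l V v ↔
      SatEx φ l V v ∧ (atom m a).Sat V v := by
  induction l with
  | nil => intro V v; exact AF.sat_and
  | cons p l ih =>
    intro V v
    rw [List.mem_cons, not_or] at hl
    show (∃ R, SatEx _ l (V.upd p.1 p.2 R) v) ↔ (∃ R, SatEx φ l (V.upd p.1 p.2 R) v) ∧ _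
    rw [← exists_and_right]
    refine exists_congr fun R => ?_
    rw [ih hl.2, sat_atom, sat_atom, upd_ne _ _ _ _ _ _ hl.1]

lemma satAll_imp (φ : AF) (m a : ℕ) (l : List (ℕ × ℕ)) (hl : (m, 0) ∉ l) :
    ∀ (V : RA 𝔐) (v : ℕ → 𝔐.M), SatAll (φ.imp (atom m a)) l V v ↔
      (SatEx φ l V v → (atom m a).Sat V v) := by
  induction l with
  | nil => intro V v; exact Iff.rfl
  | cons p l ih =>
    intro V v
    rw [List.mem_cons, not_or] at hl
    show (∀ R, SatAll _ l (V.upd p.1 p.2 R) v) ↔ ((∃ R, SatEx φ l (V.upd p.1 p.2 R) v) → _)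
    rw [forall_exists_index]
    refine forall_congr' fun R => ?_
    rw [ih hl.2, sat_atom, sat_atom, upd_ne _ _ _ _ _ _ hl.1]

/-- if `(m, 0)` is bound then the value of the variable does not matter -/
lemma satEx_of_mem (φ : AF) (m : ℕ) (l : List (ℕ × ℕ)) (hl : (m, 0) ∈ l) :
    ∀ (V W : RA 𝔐) (v : ℕ → 𝔐.M), (∀ n k, (n, k) ≠ (m, 0) → V n k = W n k) →
      (SatEx φ l V v ↔ SatEx φ l W v) := by
  induction l with
  | nil => intro V W v _; exact absurd hl List.not_mem_nil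
  | cons p l ih =>
    intro V W v h
    show (∃ R, SatEx φ l (V.upd p.1 p.2 R) v) ↔ (∃ R, SatEx φ l (W.upd p.1 p.2 R) v)
    refine exists_congr fun R => ?_
    by_cases hp : (m, 0) = p
    · have h1 : V.upd p.1 p.2 R = W.upd p.1 p.2 R := by
        funext n k
        by_cases h2 : (n, k) = (p.1, p.2)
        · obtain ⟨h3, h4⟩ := Prod.mk.inj h2
          subst h3; subst h4
          rw [upd_self, upd_self]
        · rw [upd_ne _ _ _ _ _ _ h2, upd_ne _ _ _ _ _ _ h2]
          exact h n k (fun h3 => h2 (by rw [h3, hp]))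
      rw [h1]
    · have h2 : (m, 0) ∈ l := by
        rcases List.mem_cons.1 hl with h3 | h3
        · exact absurd h3 hp
        · exact h3
      refine ih h2 _ _ _ fun n k hnk => ?_
      by_cases h3 : (n, k) = (p.1, p.2)
      · obtain ⟨h4, h5⟩ := Prod.mk.inj h3
        subst h4; subst h5
        rw [upd_self, upd_self]
      · rw [upd_ne _ _ _ _ _ _ h3, upd_ne _ _ _ _ _ _ h3]
        exact h n k hnk

/-- `Σ¹₁`-choice for formulas with exactly one solution `P` for every `x`. -/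
def UniqueChoice (𝔐 : Str) : Prop :=
  ∀ (k m : ℕ) (l : List (ℕ × ℕ)) (φ : AF) (V : RA 𝔐) (v : ℕ → 𝔐.M),
    (∀ x : Fin (k + 1) → 𝔐.M, ∃! P : 𝔐.S m, SatEx φ l (V.upd m 0 P) (ovr x v)) →
    ∃ R : 𝔐.S (k + m + 1), ∀ (x : Fin (k + 1) → 𝔐.M) (P : 𝔐.S m),
      (∀ y, y ∈ P.1 ↔ join x y ∈ R.1) → SatEx φ l (V.upd m 0 P) (ovr x v)

theorem uniqueChoice (h : DeltaComp 𝔐) : UniqueChoice 𝔐 := by
  intro k m l φ V v hP
  obtain ⟨o⟩ := 𝔐.ne
  by_cases hl : (m, 0) ∈ l
  · -- impossible: there are at least two relations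
    exfalso
    obtain ⟨R1, hR1⟩ := h m [] [] .bot .bot V v (fun x => Iff.rfl)
    obtain ⟨R2, hR2⟩ := h m [] [] (.imp .bot .bot) (.imp .bot .bot) V v (fun x => Iff.rfl)
    have hne : R1 ≠ R2 := by
      intro he
      have h1 : (fun _ => o) ∈ R2.1 := (hR2 _).2 (fun hb => hb)
      rw [← he] at h1
      exact (hR1 _).1 h1
    obtain ⟨P, hP1, hP2⟩ := hP (fun _ => o)
    have h2 : ∀ Q : 𝔐.S m, SatEx φ l (V.upd m 0 Q) (ovr (fun _ : Fin (k + 1) => o) v) := by
      intro Q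
      refine (satEx_of_mem φ m l hl _ _ _ fun n k' hnk => ?_).1 hP1
      rw [upd_ne _ _ _ _ _ _ hnk, upd_ne _ _ _ _ _ _ hnk]
    exact hne ((hP2 _ (h2 R1)).trans (hP2 _ (h2 R2)).symm)
  · obtain ⟨f, hf⟩ : ∃ f : ℕ → ℕ, ∀ i, f i = if i < k + 1 then i else i + (m + 1) := ⟨_, fun _ => rfl⟩
    have hinj : Function.Injective f := by
      intro i j hij
      rw [hf, hf] at hij
      split_ifs at hij <;> omega
    obtain ⟨v', hv'⟩ : ∃ v' : ℕ → 𝔐.M, ∀ i, v' i = v (i - (m + 1)) := ⟨_, fun _ => rfl⟩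
    have hcomp : ∀ (x : Fin (k + 1) → 𝔐.M) (y : Fin (m + 1) → 𝔐.M),
        ovr (join x y) v' ∘ f = ovr x v := by
      intro x y
      funext i
      show ovr (join x y) v' (f i) = ovr x v i
      rw [hf]
      by_cases hi : i < k + 1
      · rw [if_pos hi]
        unfold ovr join
        rw [dif_pos (show i < k + m + 1 + 1 by omega), dif_pos hi]
        simp only
        rw [dif_pos hi]
      · rw [if_neg hi]
        unfold ovr
        rw [dif_neg (show ¬ i + (m + 1) < k + m + 1 + 1 by omega), dif_neg hi, hv']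
        congr 1
        omega
    have hy : ∀ (x : Fin (k + 1) → 𝔐.M) (y : Fin (m + 1) → 𝔐.M),
        (fun i : Fin (m + 1) => ovr (join x y) v' (k + 1 + i)) = y := by
      intro x y
      funext i
      unfold ovr join
      rw [dif_pos (show k + 1 + (i : ℕ) < k + m + 1 + 1 by omega)]
      simp only
      rw [dif_neg (show ¬ k + 1 + (i : ℕ) < k + 1 by omega)]
      congr 1
      apply Fin.ext
      simp only
      omega
    have hsplit : ∀ z : Fin (k + m + 1 + 1) → 𝔐.M,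
        ∃ (x : Fin (k + 1) → 𝔐.M) (y : Fin (m + 1) → 𝔐.M), z = join x y := by
      intro z
      refine ⟨fun i => z ⟨i, by omega⟩, fun i => z ⟨k + 1 + i, by omega⟩, ?_⟩
      funext i
      unfold join
      by_cases hi : i.1 < k + 1
      · rw [dif_pos hi]
      · rw [dif_neg hi]
        congr 1
        apply Fin.ext
        simp only
        omega
    have hEx : ∀ (x : Fin (k + 1) → 𝔐.M) (y : Fin (m + 1) → 𝔐.M), SatEx ((ren f φ).and (atom m (k + 1))) ((m, 0) :: l) V
        (ovr (join x y) v') ↔ ∃ P : 𝔐.S m, SatEx φ l (V.upd m 0 P) (ovr x v) ∧ y ∈ P.1 := by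
      intro x y
      show (∃ P : 𝔐.S m, SatEx _ l (V.upd m 0 P) _) ↔ _
      refine exists_congr fun P => ?_
      rw [satEx_and _ _ _ _ hl, satEx_ren f hinj, hcomp, sat_atom, upd_self, hy]
    have hAll : ∀ (x : Fin (k + 1) → 𝔐.M) (y : Fin (m + 1) → 𝔐.M), SatAll ((ren f φ).imp (atom m (k + 1))) ((m, 0) :: l) V
        (ovr (join x y) v') ↔ ∀ P : 𝔐.S m, SatEx φ l (V.upd m 0 P) (ovr x v) → y ∈ P.1 := by
      intro x y
      show (∀ P : 𝔐.S m, SatAll _ l (V.upd m 0 P) _) ↔ _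
      refine forall_congr' fun P => ?_
      rw [satAll_imp _ _ _ _ hl, satEx_ren f hinj, hcomp, sat_atom, upd_self, hy]
    obtain ⟨R, hR⟩ := h (k + m + 1) ((m, 0) :: l) ((m, 0) :: l)
      ((ren f φ).and (atom m (k + 1))) ((ren f φ).imp (atom m (k + 1))) V v' (by
        intro z
        obtain ⟨x, y, rfl⟩ := hsplit z
        rw [hEx, hAll]
        obtain ⟨P, hP1, hP2⟩ := hP x
        constructor
        · rintro ⟨Q, hQ1, hQ2⟩ Q' hQ'
          rw [hP2 Q' hQ', ← hP2 Q hQ1]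
          exact hQ2
        · intro hall
          exact ⟨P, hP1, hall P hP1⟩)
    refine ⟨R, fun x P hxP => ?_⟩
    obtain ⟨P0, hP1, hP2⟩ := hP x
    have heq : P = P0 := by
      apply Subtype.ext
      ext y
      rw [hxP, hR, hEx]
      constructor
      · rintro ⟨Q, hQ1, hQ2⟩
        rw [← hP2 Q hQ1]; exact hQ2
      · intro hy0
        exact ⟨P0, hP1, hy0⟩
    rw [heq]; exact hP1

end Pool.Agent.KS6_29.BV
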